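import Pool.Agent.U864.DL.MatAll

/-!
# The number of different digit matrices of the multiples of an independent tuple of algebraic numbers

Let `α_1, …, α_r` be real algebraic numbers such that `1, α_1, …, α_r` are linearly independent over
`ℚ` (the case `d = 1` below), let `b_1, …, b_r ≥ 2` and `B = b_1 ⋯ b_r`. At `N` consecutive places of a
random tuple there are about `B ^ w (1 - exp (-N / B ^ w))` different digit matrices with `r` rows and
`w` columns. We show that for almost all `m ≤ M` this holds for the digit matrices of
`(m α_1 + y_1, …, m α_r + y_r)`, for all widths `w` at the same time, without any restriction, in every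
window of `N ≥ N₀` places inside of the first `A log M` places; the windows of the different rows may start at
different places. For instance, for `r = 2`, the pairs of words of length `w` at the same place
of the binary digits of `m √2` and `m √3` take nearly all of the `4 ^ w` values, if `4 ^ w = o(N)`, and
nearly all of them are different, if `N = o(4 ^ w)`. The same holds for the vectors `Ω m + y`,
`m ∈ {1, …, M} ^ d`, whenever `Ω` is an algebraic matrix to which the theorem of Kronecker applies.

Proof. Tests with a bounded number of digit matrices have errors `O(M ^ (-c))` by the subspace theorem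
(`Pool/Agent/Y951/TU`, helper951). They give a Poisson law for one matrix and for two matrices, and so
mean and variance of the number of the missing matrices; this gives the law for `w ≤ A log M` (theorem
`mat4` of `Pool/Agent/N639/FH/FinM.lean`, helper639, with parts by helper407, used by no earlier
result). New here (helper864): the widths `w > A log M`, where the theorem on the longest repeated
matrix (`Pool/Agent/U864/DL/Mat.lean`) shows that all matrices are different; they involve digits at
places for which no test is available.
-/

set_option autoImplicit false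

namespace Pool.Agent.Results.MP_c8ecb2_nt.ComplexityOfMatrices

open Finset Real

/-- the word of the `w` digits in base `b` of `x` which follow the first `n` digits after the point,
read as an integer between `0` and `b ^ w - 1` -/
noncomputable def word (b w n : ℕ) (x : ℝ) : ℕ :=
  ⌊(b : ℝ) ^ w * Int.fract ((b : ℝ) ^ n * x)⌋₊

/-- the digit matrix of width `w` whose `j`-th row is the word of `w` digits in base `b j` of `x j`
which follow the first `s j + i` digits -/
noncomputable def matrix {r : ℕ} (b s : Fin r → ℕ) (w i : ℕ) (x : Fin r → ℝ) : Fin r → ℕ :=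
  fun j => word (b j) w (s j + i) (x j)

/-- the number of different digit matrices of width `w` at the `N` places `i < N` -/
noncomputable def different {r : ℕ} (b s : Fin r → ℕ) (w N : ℕ) (x : Fin r → ℝ) : ℕ :=
  ((range N).image fun i => matrix b s w i x).card

/-- the expected number of different digit matrices of width `w` at `N` places -/
noncomputable def expected {r : ℕ} (b : Fin r → ℕ) (w N : ℕ) : ℝ :=
  (∏ j, (b j : ℝ) ^ w) * (1 - exp (-(N / ∏ j, (b j : ℝ) ^ w)))

open Classical in
/-- Let `Ω` be an `r × d` matrix of real algebraic numbers such that for every nonzero integer vector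
`c` some entry of `c Ω` is irrational (for `d = 1` this means that `1, Ω_1, …, Ω_r` are linearly
independent over `ℚ`), and let bases `b j ≥ 2`, `A > 0` and `ε > 0` be given. There are `N₀` and `M₀` such
that for all `M ≥ M₀`, all real vectors `y` and all windows `s`, `N` with `N ≥ N₀` and
`s j + N ≤ A log M` all but at most `ε M ^ d` of the `m` in `{1, …, M} ^ d` are such that for all widths `w`
the number of the different digit matrices of width `w` of `Ω m + y` in the window is the
expected one up to a factor `1 + ε`. -/
theorem result (r d : ℕ) (hr : 1 ≤ r) (Ω : Fin r → Fin d → ℝ)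
    (halg : ∀ j t, IsAlgebraic ℚ (Ω j t))
    (hind : ∀ c : Fin r → ℤ, c ≠ 0 → ∃ t, Irrational (∑ j, (c j : ℝ) * Ω j t)) (b : Fin r → ℕ)
    (hb : ∀ j, 2 ≤ b j) (A ε : ℝ) (hA : 0 < A) (hε : 0 < ε) :
    ∃ N₀ M₀ : ℕ, ∀ M : ℕ, M₀ ≤ M → ∀ (y : Fin r → ℝ) (s : Fin r → ℕ) (N : ℕ), N₀ ≤ N →
      (∀ j, (s j : ℝ) + N ≤ A * log M) →
      (((Fintype.piFinset fun _ : Fin d => Icc 1 M).filter (fun m : Fin d → ℕ =>
        ¬ ∀ w : ℕ,
          |(different b s w N (fun j => ∑ t, (m t : ℝ) * Ω j t + y j) : ℝ) - expected b w N| ≤
            ε * expected b w N)).card : ℝ) ≤ ε * (M : ℝ) ^ d := by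
  have hp : ∀ k : ℕ, (∏ j, (b j : ℝ) ^ k) = ((∏ j, b j : ℕ) : ℝ) ^ k := by
    intro k
    rw [Finset.prod_pow]
    push_cast
    rfl
  obtain ⟨N₀, hN₀⟩ := Pool.Agent.U864.DL.mat4all hr Ω halg hind hb hA hε
  obtain ⟨M₀, hM₀⟩ := Filter.eventually_atTop.1 hN₀
  refine ⟨N₀, M₀, fun M hM y s N h1 h2 => ?_⟩
  have key := hM₀ M hM y s N h1 h2
  unfold expected
  simp only [hp]
  exact key

end Pool.Agent.Results.MP_c8ecb2_nt.ComplexityOfMatrices
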