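import Mathlib
import Pool.Agent.U349.OB.Tuple

/-!
# Normality of all tuples of a group of reals is a one-bit property of its elements

Let `G` be an additive subgroup of the real numbers (the algebraic numbers, a number field, the
multiples of one number) and `b ≥ 2`. All tuples of elements of `G` which are linearly independent
together with `1` are normal to base `b` if and only if every irrational element of `G` has a certain
one-bit statistic; for `b ≥ 3` if and only if every irrational element of `G` is simply normal.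
-/

set_option autoImplicit false

namespace Pool.Agent.Results.MP_c8ecb2_nt.OneBitOfElements

open Finset Filter Topology
open Pool.Agent.U349.OB

/-- all tuples `α` of real numbers with the property `G`, linearly independent over `ℚ` together
with `1`, are normal to base `b`: every digit matrix `D` occurs with frequency `b ^ (-mn)` -/
def TuplesNormal (b : ℕ) (G : ℝ → Prop) : Prop :=
  ∀ (n : ℕ) (α : Fin n → ℝ), (∀ j, G (α j)) → LinearIndependent ℚ (Matrix.vecCons (1 : ℝ) α) →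
    ∀ (m : ℕ), 1 ≤ m → ∀ D : Fin n → Fin m → Fin b,
      Tendsto (fun N : ℕ => (((Finset.filter (fun i : ℕ => ∀ j : Fin n, ∀ t : Fin m,
        Int.floor (α j * (b : ℝ) ^ (i + (t : ℕ))) % (b : ℤ) = (((D j t : ℕ)) : ℤ))
          (Finset.Icc 1 N)).card : ℝ) / (N : ℝ))) atTop (𝓝 (1 / (b : ℝ) ^ (m * n)))

/-- half of the points `z b ^ i` lie in `[1/4, 3/4)` modulo one -/
def MidFreq (b : ℕ) (z : ℝ) : Prop :=
  Tendsto (fun n : ℕ => ((#{i ∈ range n | 1 / 4 ≤ Int.fract (z * (b : ℝ) ^ i) ∧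
      Int.fract (z * (b : ℝ) ^ i) < 3 / 4} : ℕ) : ℝ) / (n : ℝ)) atTop (𝓝 (1 / 2))

/-- half of the binary digits of `z` differ from the next digit -/
def ChangeFreq (z : ℝ) : Prop :=
  Tendsto (fun n : ℕ => ((#{i ∈ range n | ⌊z * 2 ^ (i + 1)⌋ % 2 ≠ ⌊z * 2 ^ (i + 2)⌋ % 2} : ℕ) : ℝ) /
    (n : ℝ)) atTop (𝓝 (1 / 2))

/-- `x` is simply normal in base `b`: every digit has asymptotic frequency `1 / b`. -/
def IsSimplyNormal (b : ℕ) (x : ℝ) : Prop :=
  ∀ d : Fin b, Tendsto (fun n : ℕ => ((#{i ∈ range n |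
    ⌊x * (b : ℝ) ^ (i + 1)⌋ % (b : ℤ) = ((d : ℕ) : ℤ)} : ℕ) : ℝ) / (n : ℝ)) atTop
    (𝓝 (1 / (b : ℝ)))

lemma mid_iff (b : ℕ) (z : ℝ) : MidFreq b z ↔ Bit b z := (freq_iff _ _).symm

lemma change_bit (z : ℝ) : ChangeFreq z ↔ Bit 2 z := by
  unfold ChangeFreq Bit
  rw [freq_iff]
  have h : ∀ i : ℕ, (⌊z * 2 ^ (i + 1)⌋ % 2 ≠ ⌊z * 2 ^ (i + 2)⌋ % 2) ↔
      (1 / 4 ≤ Int.fract (z * ((2 : ℕ) : ℝ) ^ i) ∧ Int.fract (z * ((2 : ℕ) : ℝ) ^ i) < 3 / 4) := by
    intro i
    rw [change_iff]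
    have e1 : z * ((2 : ℕ) : ℝ) ^ i * 2 = z * 2 ^ (i + 1) := by push_cast; ring
    have e2 : z * ((2 : ℕ) : ℝ) ^ i * 4 = z * 2 ^ (i + 2) := by push_cast; ring
    rw [e1, e2]
  simp only [h]

lemma simply_iff (b : ℕ) (x : ℝ) : IsSimplyNormal b x ↔ SN b x := (SN_iff b x).symm

lemma tester_SN (b : ℕ) (hb : 3 ≤ b) : Tester b (SN b) := by
  constructor
  · intro z v h d hd
    refine freq_close _ _ v _ (fun n => ?_) (h d hd)
    have h2 : ∀ i : ℕ, (b : ℝ) ^ v * z * (b : ℝ) ^ i = z * (b : ℝ) ^ (i + v) := by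
      intro i; rw [pow_add]; ring
    simp only [h2]
    exact count_shift (fun i => ⌊(b : ℝ) * (z * (b : ℝ) ^ i)⌋ % (b : ℤ) = (d : ℤ)) v n
  · intro ε hε
    obtain ⟨K, hK⟩ := (tester_PN b hb).small ε hε
    refine ⟨K, fun z hz => hK z fun k hk1 hk2 d hd => ?_⟩
    have h := hz k hk1 hk2
    have h1 := freq_add _ _ _ _ (h d hd) (h (b - 1 - d) (by omega))
    have h2 : (1 : ℝ) / b + 1 / b = 2 / b := by ring
    rw [h2] at h1
    exact h1

lemma OB_self (b : ℕ) (hb : 2 ≤ b) (x : ℝ) (hx : CellN b x) : Bit b x := by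
  have := OB_of_cellN b hb x hx 1 le_rfl
  simpa using this

lemma SN_self (b : ℕ) (hb : 2 ≤ b) (x : ℝ) (hx : CellN b x) : SN b x := by
  have := SN_of_cellN b hb x hx 1 le_rfl
  simpa using this

lemma mid (b : ℕ) (hb : 2 ≤ b) (G : AddSubgroup ℝ) :
    TuplesNormal b (· ∈ G) ↔ ∀ x ∈ G, Irrational x → MidFreq b x := by
  simp only [mid_iff]
  exact subgroup_iff b hb (Bit b) (tester_OB b) (OB_self b hb) G

lemma change (G : AddSubgroup ℝ) :
    TuplesNormal 2 (· ∈ G) ↔ ∀ x ∈ G, Irrational x → ChangeFreq x := by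
  simp only [change_bit]
  exact subgroup_iff 2 le_rfl (Bit 2) (tester_OB 2) (OB_self 2 le_rfl) G

lemma simply (b : ℕ) (hb : 3 ≤ b) (G : AddSubgroup ℝ) :
    TuplesNormal b (· ∈ G) ↔ ∀ x ∈ G, Irrational x → IsSimplyNormal b x := by
  simp only [simply_iff]
  exact subgroup_iff b (by omega) (SN b) (tester_SN b hb) (SN_self b (by omega)) G

/-- the group of real algebraic numbers -/
def Alg : AddSubgroup ℝ where
  carrier := {x | IsAlgebraic ℚ x}
  add_mem' := fun ha hb => IsAlgebraic.add ha hb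
  zero_mem' := isAlgebraic_zero
  neg_mem' := fun ha => IsAlgebraic.neg ha

/-- **Normality of all tuples of a group is a one-bit property of its elements.** -/
theorem result :
    -- every additive group of real numbers
    (∀ G : AddSubgroup ℝ,
      (∀ b : ℕ, 2 ≤ b → (TuplesNormal b (· ∈ G) ↔ ∀ x ∈ G, Irrational x → MidFreq b x)) ∧
      (TuplesNormal 2 (· ∈ G) ↔ ∀ x ∈ G, Irrational x → ChangeFreq x) ∧
      (∀ b : ℕ, 3 ≤ b →
        (TuplesNormal b (· ∈ G) ↔ ∀ x ∈ G, Irrational x → IsSimplyNormal b x))) ∧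
    -- the algebraic numbers: Q1 for a fixed base
    (TuplesNormal 2 (IsAlgebraic ℚ) ↔ ∀ x : ℝ, IsAlgebraic ℚ x → Irrational x → ChangeFreq x) ∧
    (∀ b : ℕ, 3 ≤ b →
      (TuplesNormal b (IsAlgebraic ℚ) ↔
        ∀ x : ℝ, IsAlgebraic ℚ x → Irrational x → IsSimplyNormal b x)) :=
  ⟨fun G => ⟨fun b hb => mid b hb G, change G, fun b hb => simply b hb G⟩, change Alg,
    fun b hb => simply b hb Alg⟩

end Pool.Agent.Results.MP_c8ecb2_nt.OneBitOfElements
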