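import Pool.Agent.U864.DL.Mat

/-!
# The longest repeated digit matrix of the multiples of an independent tuple

Let `α_1, …, α_r` be real algebraic numbers such that `1, α_1, …, α_r` are linearly independent over
`ℚ` (the case `d = 1` below), let `b_1, …, b_r ≥ 2` and `B = b_1 ⋯ b_r`. For a random tuple the largest
width of a digit matrix which stands at two of `N` consecutive places is `(2 + o(1)) log_B N`. We show
that for almost all `m ≤ M` this holds for the digit matrices of `(m α_1 + y_1, …, m α_r + y_r)`, for
all `N ≥ N₀` at the same time, in all windows inside of the first `A log M` places; the windows of the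
different rows may start at different places. For instance, if a word of the binary digits of `m √2`
and the word at the same place of the binary digits of `m √3` both stand again at a second common
place, among `N` places, then their length is at most `(1 + ε) log_2 N`, although both expansions have
repeated words of length `(2 - ε) log_2 N`. The same holds for the vectors `Ω m + y`,
`m ∈ {1, …, M} ^ d`, whenever `Ω` is an algebraic matrix to which the theorem of Kronecker applies.

Proof. The columns are the digits in base `B` of a mixed number, which passes all tests with a bounded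
number of words up to `O(M ^ (-c))` by the subspace theorem (starting files `Y951/TU` of helper951 and
`N639/FH/FinM` of helper639). First and second moment of the number of the repetitions (starting files
`N639/FG/C2`, `N639/FG/Grid` of helper639).
-/

set_option autoImplicit false

namespace Pool.Agent.Results.MP_c8ecb2_nt.RepeatedMatrices

open Finset Real

/-- the digit in base `b` of `x` which follows the first `n` digits after the point -/
noncomputable def digit (b n : ℕ) (x : ℝ) : ℕ := ⌊(b : ℝ) * Int.fract ((b : ℝ) ^ n * x)⌋₊

/-- the column of the digits in the bases `b j` of the numbers `x j` at the places `s j + n` -/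
noncomputable def column {r : ℕ} (b s : Fin r → ℕ) (n : ℕ) (x : Fin r → ℝ) : Fin r → ℕ :=
  fun j => digit (b j) (s j + n) (x j)

/-- for all `N` with `N₀ ≤ N ≤ L`: among the digit matrices which start at the places `0, …, N - 1` of
the window there are two equal ones of every width `w ≤ (2 - ε) log_B N`, and there are no two equal
ones of a width larger than `(2 + ε) log_B N`; here `B` is the product of the bases -/
def MatLaw {r : ℕ} (b s : Fin r → ℕ) (N₀ : ℕ) (L ε : ℝ) (x : Fin r → ℝ) : Prop :=
  ∀ N : ℕ, N₀ ≤ N → (N : ℝ) ≤ L →
    (∀ w : ℕ, (w : ℝ) ≤ (2 - ε) * logb (∏ j, b j : ℕ) N →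
      ∃ i j, i < j ∧ j < N ∧ ∀ k < w, column b s (i + k) x = column b s (j + k) x) ∧
    (∀ w i j : ℕ, i < j → j < N → (∀ k < w, column b s (i + k) x = column b s (j + k) x) →
      (w : ℝ) ≤ (2 + ε) * logb (∏ j, b j : ℕ) N)

open Classical in
/-- Let `Ω` be an `r × d` matrix of real algebraic numbers such that for every nonzero integer vector
`c` some entry of `c Ω` is irrational (for `d = 1` this means that `1, Ω_1, …, Ω_r` are linearly
independent over `ℚ`), and let bases `b j ≥ 2`, `A > 0` and `ε > 0` be given. There are `N₀` and `M₀` such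
that for all `M ≥ M₀`, all real vectors `y` and all `s` with `s j ≤ A log M` all but at most `ε M ^ d` of
the `m` in `{1, …, M} ^ d` are such that `Ω m + y` satisfies the law of the longest repeated digit matrix
for all windows `N₀ ≤ N ≤ A log M` which start at the places `s j`. -/
theorem result (r d : ℕ) (hr : 1 ≤ r) (Ω : Fin r → Fin d → ℝ)
    (halg : ∀ j t, IsAlgebraic ℚ (Ω j t))
    (hind : ∀ c : Fin r → ℤ, c ≠ 0 → ∃ t, Irrational (∑ j, (c j : ℝ) * Ω j t)) (b : Fin r → ℕ)
    (hb : ∀ j, 2 ≤ b j) (A ε : ℝ) (hA : 0 < A) (hε : 0 < ε) :
    ∃ N₀ M₀ : ℕ, ∀ M : ℕ, M₀ ≤ M → ∀ (y : Fin r → ℝ) (s : Fin r → ℕ),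
      (∀ j, (s j : ℝ) ≤ A * log M) →
      (((Fintype.piFinset fun _ : Fin d => Icc 1 M).filter (fun m : Fin d → ℕ =>
        ¬ MatLaw b s N₀ (A * log M) ε (fun j => ∑ t, (m t : ℝ) * Ω j t + y j))).card : ℝ) ≤
          ε * (M : ℝ) ^ d := by
  obtain ⟨N₀, hN₀⟩ := Pool.Agent.U864.DL.mat2 hr Ω halg hind hb hA hε
  obtain ⟨M₀, hM₀⟩ := Filter.eventually_atTop.1 hN₀
  exact ⟨N₀, M₀, fun M hM y s h => hM₀ M hM y s h⟩

end Pool.Agent.Results.MP_c8ecb2_nt.RepeatedMatrices
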