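import Pool.Agent.U864.DL.LangMat

/-!
# The widest matrices of a given kind in the digits of multiples of independent tuples

Let `𝓜` be a set of digit matrices with `r` rows (digits in base `b_j` in the row `j`) with the growth
rate `θ`, where `0 < θ < B = b_1 ⋯ b_r`: it has `θ ^ (w + o(w))` matrices of width `w`. In the digits of a
random tuple the widest matrix of `𝓜` which starts at one of `N` consecutive places has width
`(1 + o(1)) log N / log (B / θ)`. Examples, for `r = 2` and `b_1 = b_2 = b`: the longest word which stands at
the same place in both rows (`θ = b`), the longest stretch on which the rows never agree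
(`θ = b (b - 1)`), the longest stretch on which they agree with frequency at least `a > 1 / b`, the
longest stretch where one row is the complement or the shift of the other one; for all `r`, the
longest run of a column (`θ = 1`).

Let `α_1, …, α_r` be real algebraic numbers such that `1, α_1, …, α_r` are linearly independent over
`ℚ` (the case `d = 1` below). We show that for almost all `m ≤ M` this law holds for the digits of
`(m α_1 + y_1, …, m α_r + y_r)`, for all `N` with `N₀ ≤ N ≤ A log M` at the same time; the windows of
the different rows may start at different places. The same holds for the vectors `Ω m + y`,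
`m ∈ {1, …, M} ^ d`, whenever `Ω` is an algebraic matrix to which the theorem of Kronecker applies.

Proof. Tests with a bounded number of digit matrices have errors `O(M ^ (-c))` by the subspace theorem
(starting files `Y951/TU` of helper951, `N639/FH/FinM` of helper639). New here
(`Pool/Agent/U864/DL/Lang.lean`, `Lang2.lean`, `LangMat.lean`): the first moment of the number of
matrices in `𝓜` at all places and the second moment at separated places, for each width and each
`N = 2 ^ j`, with errors which can be summed, and the passage to all `N`.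
-/

set_option autoImplicit false

namespace Pool.Agent.Results.MP_c8ecb2_nt.WidestMatrices

open Finset Real
open Pool.Agent.U864.DL (block blocks matricesOf MatrixGrowthRate ColumnClosed WidestMatrixLaw)

open Classical in
/-- Let `Ω` be an `r × d` matrix of real algebraic numbers such that for every nonzero integer vector
`c` some entry of `c Ω` is irrational (for `d = 1` this means that `1, Ω_1, …, Ω_r` are linearly
independent over `ℚ`), let bases `b j ≥ 2` and a set `𝓜` of matrices of growth rate `θ`,
`0 < θ < ∏ b_j`, be given. For all `A > 0`, `C` and `ε > 0` there are `w₀`, `N₀` and `M₀` such that for all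
`M ≥ M₀`, all real vectors `y` and all `s` with `s j ≤ A log M` all but at most `ε M ^ d` of the `m` in
`{1, …, M} ^ d` are such that the law of the widest matrix holds for `Ω m + y`. -/
theorem result (r d : ℕ) (hr : 1 ≤ r) (Ω : Fin r → Fin d → ℝ)
    (halg : ∀ j t, IsAlgebraic ℚ (Ω j t))
    (hind : ∀ c : Fin r → ℤ, c ≠ 0 → ∃ t, Irrational (∑ j, (c j : ℝ) * Ω j t)) (b : Fin r → ℕ)
    (hb : ∀ j, 2 ≤ b j) (𝓜 : Set (Fin r → List ℕ)) (θ : ℝ) (hθ : 0 < θ)
    (hθb : θ < (∏ j, b j : ℕ)) (hg : MatrixGrowthRate b 𝓜 θ) (A C ε : ℝ) (hA : 0 < A)
    (hε : 0 < ε) :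
    ∃ w₀ N₀ M₀ : ℕ, ∀ M : ℕ, M₀ ≤ M → ∀ (y : Fin r → ℝ) (s : Fin r → ℕ),
      (∀ j, (s j : ℝ) ≤ A * log M) →
      (((Fintype.piFinset fun _ : Fin d => Icc 1 M).filter (fun m : Fin d → ℕ =>
        ¬ WidestMatrixLaw b 𝓜 θ C ε w₀ N₀ s (A * log M)
          (fun j => ∑ t, (m t : ℝ) * Ω j t + y j))).card : ℝ) ≤ ε * (M : ℝ) ^ d := by
  obtain ⟨w₀, N₀, hN₀⟩ :=
    Pool.Agent.U864.DL.widest_matrix hr Ω halg hind hb 𝓜 hθ hθb hg hA C hε
  obtain ⟨M₀, hM₀⟩ := Filter.eventually_atTop.1 hN₀
  exact ⟨w₀, N₀, M₀, fun M hM y s hs => hM₀ M hM y s hs⟩

end Pool.Agent.Results.MP_c8ecb2_nt.WidestMatrices
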